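import Mathlib
import Pool.Agent.X1.TMFibRatio

/-!
# No limit point of the ratios of the Thue–Morse-twisted Fibonacci sequence is rational
-/

set_option autoImplicit false

namespace Pool.Agent.Results.MP_e68cb8_nt.LiminfIrrational

open Filter Pool.Agent.X1.TMFib

/-- Transition over `t` double steps. -/
lemma transition (m t : ℕ) : ∃ a b c d : ℤ, 0 ≤ a ∧ 0 ≤ b ∧ 0 ≤ c ∧ 0 ≤ d ∧
    (a * d - b * c = 1 ∨ a * d - b * c = -1) ∧
    G (2 * (m + 1 + t)) = a * G (2 * (m + 1)) + b * G (2 * m + 1) ∧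
    G (2 * (m + t) + 1) = c * G (2 * (m + 1)) + d * G (2 * m + 1) ∧
    (t : ℤ) ≤ a + b ∧ (t : ℤ) + 1 ≤ c + d ∧ 1 ≤ a + b := by
  induction t with
  | zero => exact ⟨1, 0, 0, 1, by norm_num, by norm_num, by norm_num, by norm_num, by norm_num,
      by simp, by simp, by norm_num, by norm_num, by norm_num⟩
  | succ t ih =>
    obtain ⟨a, b, c, d, ha, hb, hc, hd, hdet, h1, h2, h3, h4, h5⟩ := ih
    -- names
    have e1 : G (2 * (m + (t + 1)) + 1) = G (2 * (m + 1 + t)) + G (2 * (m + t) + 1) := by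
      have := G_odd (m + t)
      rw [show 2 * (m + t) + 3 = 2 * (m + (t + 1)) + 1 by ring,
        show 2 * (m + t) + 2 = 2 * (m + 1 + t) by ring] at this
      exact this
    have e2 : G (2 * (m + 1 + (t + 1))) = G (2 * (m + (t + 1)) + 1)
        + p (2 * (m + 1 + (t + 1))) * G (2 * (m + 1 + t)) := by
      have := G_rec (2 * (m + 1 + t))
      rw [show 2 * (m + 1 + t) + 2 = 2 * (m + 1 + (t + 1)) by ring,
        show 2 * (m + 1 + t) + 1 = 2 * (m + (t + 1)) + 1 by ring] at this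
      exact this
    rcases p_pm (2 * (m + 1 + (t + 1))) with hp | hp
    · refine ⟨2 * a + c, 2 * b + d, a + c, b + d, by linarith, by linarith, by linarith, by linarith,
        ?_, ?_, ?_, ?_, ?_, ?_⟩
      · rcases hdet with h | h
        · left; linear_combination h
        · right; linear_combination h
      · rw [e2, e1, hp, h1, h2]; ring
      · rw [e1, h1, h2]; ring
      · push_cast; linarith
      · push_cast; linarith
      · linarith
    · refine ⟨c, d, a + c, b + d, hc, hd, by linarith, by linarith, ?_, ?_, ?_, ?_, ?_, ?_⟩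
      · rcases hdet with h | h
        · right; linear_combination -h
        · left; linear_combination -h
      · rw [e2, e1, hp, h1, h2]; ring
      · rw [e1, h1, h2]; ring
      · push_cast; linarith
      · push_cast; linarith
      · have : (0 : ℤ) ≤ t := Int.natCast_nonneg t
        linarith

/-- A unimodular nonnegative transition keeps fixed rationals away. -/
lemma away (a b c d X Y u v : ℤ) (ha : 0 ≤ a) (hb : 0 ≤ b)
    (hdet : a * d - b * c = 1 ∨ a * d - b * c = -1) (hX : 1 ≤ X) (hY : 1 ≤ Y) (hv : 1 ≤ v)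
    (hvab : v < a + b) (D : ℤ) (hDX : D ≤ X) (hDY : D ≤ Y) :
    D ≤ |v * (c * X + d * Y) - u * (a * X + b * Y)| := by
  -- write the form as `α X - β Y`
  set α := v * c - u * a with hα
  set β := u * b - v * d with hβ
  have hform : v * (c * X + d * Y) - u * (a * X + b * Y) = α * X - β * Y := by
    rw [hα, hβ]; ring
  have hv2 : a * β + b * α = v * (b * c - a * d) := by rw [hα, hβ]; ring
  have hD' : ∀ z w : ℤ, (1 ≤ z ∧ 0 ≤ w) ∨ (0 ≤ z ∧ 1 ≤ w) → D ≤ z * X + w * Y := by
    intro z w h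
    rcases h with ⟨h1, h2⟩ | ⟨h1, h2⟩
    · nlinarith
    · nlinarith
  rw [hform]
  -- exclude equal signs
  have hex1 : ¬ (1 ≤ α ∧ 1 ≤ β) := by
    rintro ⟨h1, h2⟩
    have h3 : a + b ≤ a * β + b * α := by nlinarith
    rcases hdet with h | h
    · have : b * c - a * d = -1 := by linarith
      rw [this] at hv2
      linarith
    · have : b * c - a * d = 1 := by linarith
      rw [this] at hv2
      linarith
  have hex2 : ¬ (α ≤ -1 ∧ β ≤ -1) := by
    rintro ⟨h1, h2⟩
    have h3 : a * β + b * α ≤ -(a + b) := by nlinarith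
    rcases hdet with h | h
    · have : b * c - a * d = -1 := by linarith
      rw [this] at hv2
      linarith
    · have : b * c - a * d = 1 := by linarith
      rw [this] at hv2
      linarith
  have hex3 : ¬ (α = 0 ∧ β = 0) := by
    rintro ⟨h1, h2⟩
    rw [h1, h2] at hv2
    rcases hdet with h | h
    · have : b * c - a * d = -1 := by linarith
      rw [this] at hv2
      linarith
    · have : b * c - a * d = 1 := by linarith
      rw [this] at hv2
      linarith
  rcases lt_trichotomy α 0 with h1 | h1 | h1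
  · -- α < 0, β ≥ 0
    have hβ0 : 0 ≤ β := by
      by_contra hcon
      exact hex2 ⟨by omega, by omega⟩
    have := hD' (-α) β (Or.inl ⟨by omega, hβ0⟩)
    calc D ≤ -α * X + β * Y := this
      _ = -(α * X - β * Y) := by ring
      _ ≤ |α * X - β * Y| := neg_le_abs _
  · have hβ0 : β ≠ 0 := fun h => hex3 ⟨h1, h⟩
    rcases lt_or_gt_of_ne hβ0 with h2 | h2
    · have := hD' α (-β) (Or.inr ⟨h1.ge, by omega⟩)
      calc D ≤ α * X + -β * Y := this
        _ = α * X - β * Y := by ring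
        _ ≤ |α * X - β * Y| := le_abs_self _
    · have := hD' (-α) β (Or.inr ⟨by omega, by omega⟩)
      calc D ≤ -α * X + β * Y := this
        _ = -(α * X - β * Y) := by ring
        _ ≤ |α * X - β * Y| := neg_le_abs _
  · have hβ0 : β ≤ 0 := by
      by_contra hcon
      exact hex1 ⟨by omega, by omega⟩
    have := hD' α (-β) (Or.inl ⟨by omega, by omega⟩)
    calc D ≤ α * X + -β * Y := this
      _ = α * X - β * Y := by ring
      _ ≤ |α * X - β * Y| := le_abs_self _

lemma G_succ_le4 (n : ℕ) : G (n + 2) ≤ 4 * G (n + 1) := by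
  have := G_le_seven n
  have h1 := G_nonneg (n + 1)
  linarith

lemma G_pow_le (n s : ℕ) : G (n + 1 + s) ≤ 4 ^ s * G (n + 1) := by
  induction s with
  | zero => simp
  | succ s ih =>
    have h1 := G_succ_le4 (n + s)
    rw [show n + 1 + (s + 1) = n + s + 2 by ring]
    rw [show n + 1 + s = n + s + 1 by ring] at ih
    rw [pow_succ]
    linarith

lemma G_le_four (n : ℕ) : G (n + 1) ≤ 4 * G (n + 2) := by
  -- from `2 G_n ≤ 3 G_{n+2}`
  have h1 := G_skip (n + 1)
  have h2 := G_succ_le4 (n + 1)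
  have h3 := G_nonneg (n + 2)
  have h4 := G_rec n
  have h5 := G_skip n
  have h6 := G_nonneg n
  rcases p_pm (n + 2) with h | h <;> rw [h] at h4 <;> linarith

/-- For `v ≥ 1` and `N` large, `|v G_N - u G_{N+1}| ≥ ε G_{N+1}` with an explicit `ε`. -/
lemma far (u v : ℤ) (hv : 1 ≤ v) : ∃ T : ℕ, ∀ N, T ≤ N →
    G (N + 1) ≤ 4 ^ T * |v * G N - u * G (N + 1)| := by
  obtain ⟨t, ht⟩ : ∃ t : ℕ, v + 1 = t := ⟨(v + 1).toNat, (Int.toNat_of_nonneg (by omega)).symm⟩
  refine ⟨2 * t + 6, fun N hN => ?_⟩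
  obtain ⟨M, hM | hM⟩ := Nat.even_or_odd' N
  · -- `N = 2M = 2(m+1+t)`, `N + 1 = 2(m+1+t)+1`
    obtain ⟨m, rfl⟩ : ∃ m, M = m + 1 + t := ⟨M - 1 - t, by omega⟩
    obtain ⟨a, b, c, d, ha, hb, hc, hd, hdet, h1, h2, h3, h4, h5⟩ := transition m t
    have e1 : G (N + 1) = G (2 * (m + 1 + t)) + G (2 * (m + t) + 1) := by
      have := G_odd (m + t)
      rw [show 2 * (m + t) + 3 = N + 1 by omega,
        show 2 * (m + t) + 2 = 2 * (m + 1 + t) by ring] at this
      exact this
    have hX := G_pos (2 * (m + 1)) (by omega)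
    have hY := G_pos (2 * m + 1) (by omega)
    have hXY : G (2 * m + 1) ≤ 4 * G (2 * (m + 1)) := by
      have := G_le_four (2 * m)
      rw [show 2 * m + 2 = 2 * (m + 1) by ring] at this
      exact this
    -- lower bound for the form
    have key2 : G (2 * m + 1) ≤ 4 * |v * G N - u * G (N + 1)| := by
      have h6 := away (a + c) (b + d) a b (G (2 * (m + 1))) (G (2 * m + 1)) u v (by linarith)
        (by linarith) (by
          rcases hdet with h | h
          · right; linear_combination -h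
          · left; linear_combination -h) hX hY hv (by linarith)
        (min (G (2 * (m + 1))) (G (2 * m + 1))) (min_le_left _ _) (min_le_right _ _)
      have h7 : v * (a * G (2 * (m + 1)) + b * G (2 * m + 1))
          - u * ((a + c) * G (2 * (m + 1)) + (b + d) * G (2 * m + 1)) = v * G N - u * G (N + 1) := by
        rw [e1, hM, h1, h2]; ring
      rw [h7] at h6
      rcases min_choice (G (2 * (m + 1))) (G (2 * m + 1)) with h | h <;> rw [h] at h6 <;> linarith
    have h8 : G (N + 1) ≤ 4 ^ (2 * t + 2) * G (2 * m + 1) := by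
      have := G_pow_le (2 * m) (2 * t + 2)
      rw [show 2 * m + 1 + (2 * t + 2) = N + 1 by omega] at this
      exact this
    have habs : 0 ≤ |v * G N - u * G (N + 1)| := abs_nonneg _
    calc G (N + 1) ≤ 4 ^ (2 * t + 2) * G (2 * m + 1) := h8
      _ ≤ 4 ^ (2 * t + 2) * (4 * |v * G N - u * G (N + 1)|) := by
          apply mul_le_mul_of_nonneg_left key2 (by positivity)
      _ = 4 ^ (2 * t + 3) * |v * G N - u * G (N + 1)| := by ring
      _ ≤ 4 ^ (2 * t + 6) * |v * G N - u * G (N + 1)| := by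
          apply mul_le_mul_of_nonneg_right _ habs
          exact pow_le_pow_right₀ (by norm_num) (by omega)
  · -- `N = 2(m+t)+1`
    obtain ⟨m, rfl⟩ : ∃ m, M = m + t := ⟨M - t, by omega⟩
    obtain ⟨a, b, c, d, ha, hb, hc, hd, hdet, h1, h2, h3, h4, h5⟩ := transition m t
    have hX := G_pos (2 * (m + 1)) (by omega)
    have hY := G_pos (2 * m + 1) (by omega)
    have hXY : G (2 * m + 1) ≤ 4 * G (2 * (m + 1)) := by
      have := G_le_four (2 * m)
      rw [show 2 * m + 2 = 2 * (m + 1) by ring] at this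
      exact this
    have e1 : G (N + 1) = G (2 * (m + 1 + t)) := by
      rw [show N + 1 = 2 * (m + 1 + t) by omega]
    have key2 : G (2 * m + 1) ≤ 4 * |v * G N - u * G (N + 1)| := by
      have h6 := away a b c d (G (2 * (m + 1))) (G (2 * m + 1)) u v ha hb hdet hX hY hv
        (by linarith) (min (G (2 * (m + 1))) (G (2 * m + 1))) (min_le_left _ _) (min_le_right _ _)
      have h7 : v * (c * G (2 * (m + 1)) + d * G (2 * m + 1))
          - u * (a * G (2 * (m + 1)) + b * G (2 * m + 1)) = v * G N - u * G (N + 1) := by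
        rw [e1, hM, h1, h2]
      rw [h7] at h6
      rcases min_choice (G (2 * (m + 1))) (G (2 * m + 1)) with h | h <;> rw [h] at h6 <;> linarith
    have h8 : G (N + 1) ≤ 4 ^ (2 * t + 1) * G (2 * m + 1) := by
      have := G_pow_le (2 * m) (2 * t + 1)
      rw [show 2 * m + 1 + (2 * t + 1) = N + 1 by omega] at this
      exact this
    have habs : 0 ≤ |v * G N - u * G (N + 1)| := abs_nonneg _
    calc G (N + 1) ≤ 4 ^ (2 * t + 1) * G (2 * m + 1) := h8
      _ ≤ 4 ^ (2 * t + 1) * (4 * |v * G N - u * G (N + 1)|) := by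
          apply mul_le_mul_of_nonneg_left key2 (by positivity)
      _ = 4 ^ (2 * t + 2) * |v * G N - u * G (N + 1)| := by ring
      _ ≤ 4 ^ (2 * t + 6) * |v * G N - u * G (N + 1)| := by
          apply mul_le_mul_of_nonneg_right _ habs
          exact pow_le_pow_right₀ (by norm_num) (by omega)

lemma Gr_pos (n : ℕ) (hn : 1 ≤ n) : (0 : ℝ) < (G n : ℝ) := by
  have := G_pos n hn
  exact_mod_cast (by omega : 0 < G n)

lemma far_real (q : ℚ) : ∃ ε : ℝ, 0 < ε ∧ ∃ T : ℕ, ∀ N, T ≤ N →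
    ε ≤ |(G N : ℝ) / (G (N + 1) : ℝ) - (q : ℝ)| := by
  obtain ⟨T, hT⟩ := far q.num q.den (by exact_mod_cast q.den_pos)
  have hden : (0 : ℝ) < (q.den : ℝ) := by exact_mod_cast q.den_pos
  refine ⟨1 / (4 ^ T * q.den), by positivity, T, fun N hN => ?_⟩
  have h1 := hT N hN
  have h2 := Gr_pos (N + 1) (by omega)
  have h3 : (G N : ℝ) / (G (N + 1) : ℝ) - (q : ℝ)
      = (((q.den : ℤ) * G N - q.num * G (N + 1) : ℤ) : ℝ) / (q.den * G (N + 1)) := by
    have : (q : ℝ) = (q.num : ℝ) / (q.den : ℝ) := by exact_mod_cast (Rat.num_div_den q).symm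
    rw [this, div_sub_div _ _ h2.ne' hden.ne']
    push_cast
    congr 1
    · ring
    · ring
  have h1' : (G (N + 1) : ℝ) ≤ 4 ^ T * |(((q.den : ℤ) * G N - q.num * G (N + 1) : ℤ) : ℝ)| := by
    exact_mod_cast h1
  rw [h3, abs_div, abs_of_pos (mul_pos hden h2), div_le_div_iff₀ (by positivity) (mul_pos hden h2)]
  calc 1 * ((q.den : ℝ) * G (N + 1)) = q.den * G (N + 1) := by ring
    _ ≤ q.den * (4 ^ T * |(((q.den : ℤ) * G N - q.num * G (N + 1) : ℤ) : ℝ)|) :=
        mul_le_mul_of_nonneg_left h1' hden.le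
    _ = _ := by ring

lemma far_real_inv (q : ℚ) : ∃ ε : ℝ, 0 < ε ∧ ∃ T : ℕ, ∀ N, T ≤ N →
    ε ≤ |(G (N + 1) : ℝ) / (G N : ℝ) - (q : ℝ)| := by
  have hquarter : ∀ N, 1 ≤ N → (1 / 4 : ℝ) ≤ (G (N + 1) : ℝ) / (G N : ℝ) := by
    intro N hN
    obtain ⟨M, rfl⟩ : ∃ M, N = M + 1 := ⟨N - 1, by omega⟩
    have h1 := Gr_pos (M + 1) hN
    rw [div_le_div_iff₀ (by norm_num) h1]
    have : (G (M + 1) : ℝ) ≤ 4 * G (M + 2) := by exact_mod_cast G_le_four M
    linarith
  rcases le_or_gt q 0 with hq | hq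
  · refine ⟨1 / 4, by norm_num, 1, fun N hN => ?_⟩
    have h1 := hquarter N hN
    have h2 : (q : ℝ) ≤ 0 := by exact_mod_cast hq
    exact (by linarith : (1 / 4 : ℝ) ≤ (G (N + 1) : ℝ) / (G N : ℝ) - (q : ℝ)).trans (le_abs_self _)
  · have hnum : 0 < q.num := Rat.num_pos.2 hq
    obtain ⟨T, hT⟩ := far q.den q.num (by omega)
    have hden : (0 : ℝ) < (q.den : ℝ) := by exact_mod_cast q.den_pos
    refine ⟨1 / (4 ^ (T + 1) * q.den), by positivity, T + 1, fun N hN => ?_⟩
    have h1 := hT N (by omega)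
    have h2 := Gr_pos N (by omega)
    have h3 : (G (N + 1) : ℝ) / (G N : ℝ) - (q : ℝ)
        = - ((((q.num : ℤ) * G N - q.den * G (N + 1) : ℤ) : ℝ) / (q.den * G N)) := by
      have : (q : ℝ) = (q.num : ℝ) / (q.den : ℝ) := by exact_mod_cast (Rat.num_div_den q).symm
      rw [this, div_sub_div _ _ h2.ne' hden.ne', ← neg_div]
      push_cast
      congr 1
      · ring
      · ring
    have h1' : (G (N + 1) : ℝ) ≤ 4 ^ T * |(((q.num : ℤ) * G N - q.den * G (N + 1) : ℤ) : ℝ)| := by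
      exact_mod_cast h1
    have h4 := hquarter N (by omega)
    rw [div_le_div_iff₀ (by norm_num) h2] at h4
    rw [h3, abs_neg, abs_div, abs_of_pos (mul_pos hden h2),
      div_le_div_iff₀ (by positivity) (mul_pos hden h2)]
    calc 1 * ((q.den : ℝ) * G N) ≤ q.den * (4 * G (N + 1)) := by nlinarith
      _ ≤ q.den * (4 * (4 ^ T * |(((q.num : ℤ) * G N - q.den * G (N + 1) : ℤ) : ℝ)|)) := by
          apply mul_le_mul_of_nonneg_left _ hden.le
          linarith
      _ = _ := by ring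

/-- `ρ_{n+1} = |h_{n+1}| / |h_n|`. -/
noncomputable def rho (n : ℕ) : ℝ := |(h (n + 1) : ℝ)| / |(h n : ℝ)|

lemma abs_h_even' (N : ℕ) : |(h (2 * N) : ℝ)| = G N := by
  have : |h (2 * N)| = G N := by rw [abs_h_even, abs_of_nonneg (G_nonneg N)]
  exact_mod_cast this

lemma abs_h_odd' (N : ℕ) : |(h (2 * N + 3) : ℝ)| = G N := by
  have : |h (2 * N + 3)| = G N := by rw [abs_h_odd, abs_of_nonneg (G_nonneg N)]
  exact_mod_cast this

lemma rho_even (N : ℕ) : rho (2 * (N + 1)) = (G N : ℝ) / (G (N + 1) : ℝ) := by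
  unfold rho
  rw [show 2 * (N + 1) + 1 = 2 * N + 3 by ring, abs_h_odd', abs_h_even']

lemma rho_odd (N : ℕ) (hN : 1 ≤ N) : rho (2 * N + 3) = (G (N + 1) : ℝ) / (G N : ℝ) + p (N + 2) := by
  unfold rho
  rw [show 2 * N + 3 + 1 = 2 * (N + 2) by ring, abs_h_odd', abs_h_even', G_rec]
  have := Gr_pos N hN
  push_cast
  field_simp

/-- Every rational number stays at a positive distance from all but finitely many ratios. -/
theorem isolated (q : ℚ) : ∃ ε : ℝ, 0 < ε ∧ ∃ M : ℕ, ∀ n, M ≤ n → ε ≤ |rho n - (q : ℝ)| := by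
  obtain ⟨ε1, hε1, T1, h1⟩ := far_real q
  obtain ⟨ε2, hε2, T2, h2⟩ := far_real_inv (q - 1)
  obtain ⟨ε3, hε3, T3, h3⟩ := far_real_inv (q + 1)
  refine ⟨min ε1 (min ε2 ε3), lt_min hε1 (lt_min hε2 hε3), 2 * (T1 + T2 + T3) + 8, fun n hn => ?_⟩
  obtain ⟨N, hN | hN⟩ := Nat.even_or_odd' n
  · obtain ⟨N', rfl⟩ : ∃ N', N = N' + 1 := ⟨N - 1, by omega⟩
    rw [hN, rho_even]
    exact (min_le_left _ _).trans (h1 N' (by omega))
  · obtain ⟨N', rfl⟩ : ∃ N', N = N' + 1 := ⟨N - 1, by omega⟩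
    rw [hN, show 2 * (N' + 1) + 1 = 2 * N' + 3 by ring, rho_odd N' (by omega)]
    rcases p_pm (N' + 2) with h | h
    · rw [h]
      have h4 := h2 N' (by omega)
      push_cast at h4 ⊢
      rw [show (G (N' + 1) : ℝ) / (G N' : ℝ) + 1 - q = (G (N' + 1) : ℝ) / (G N' : ℝ) - (q - 1) by ring]
      exact ((min_le_right _ _).trans (min_le_left _ _)).trans h4
    · rw [h]
      have h4 := h3 N' (by omega)
      push_cast at h4 ⊢
      rw [show (G (N' + 1) : ℝ) / (G N' : ℝ) + -1 - q = (G (N' + 1) : ℝ) / (G N' : ℝ) - (q + 1) by ring]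
      exact ((min_le_right _ _).trans (min_le_right _ _)).trans h4

lemma rho_nonneg (n : ℕ) : 0 ≤ rho n := div_nonneg (abs_nonneg _) (abs_nonneg _)

lemma rho_le (n : ℕ) (hn : 5 ≤ n) : rho n ≤ 5 := by
  obtain ⟨N, hN | hN⟩ := Nat.even_or_odd' n
  · obtain ⟨N', rfl⟩ : ∃ N', N = N' + 2 := ⟨N - 2, by omega⟩
    rw [hN, show N' + 2 = (N' + 1) + 1 by ring, rho_even]
    have h1 := Gr_pos (N' + 1 + 1) (by omega)
    rw [div_le_iff₀ h1]
    have h2 : (G (N' + 1) : ℝ) ≤ 4 * G (N' + 1 + 1) := by exact_mod_cast G_le_four N'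
    linarith
  · obtain ⟨N', rfl⟩ : ∃ N', N = N' + 2 := ⟨N - 2, by omega⟩
    rw [hN, show 2 * (N' + 2) + 1 = 2 * (N' + 1) + 3 by ring, rho_odd (N' + 1) (by omega)]
    have h1 := Gr_pos (N' + 1) (by omega)
    have h2 : 2 * (G (N' + 2) : ℝ) ≤ 7 * G (N' + 1) := by exact_mod_cast G_le_seven N'
    have h3 : (G (N' + 1 + 1) : ℝ) / (G (N' + 1) : ℝ) ≤ 7 / 2 := by
      rw [div_le_div_iff₀ h1 (by norm_num)]
      rw [show N' + 1 + 1 = N' + 2 by ring]
      linarith
    rcases p_pm (N' + 1 + 2) with h | h <;> rw [h] <;> push_cast <;> linarith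

/-- Every rational number is at a positive distance from all but finitely many of the ratios
`ρ_{n+1} = |h_{n+1}| / |h_n|`; in particular, for all `k` and `i`, the lower limit of `ρ_{2^k n + i + 1}`
as `n → ∞` is irrational. -/
theorem result :
    (∀ q : ℚ, ∃ ε : ℝ, 0 < ε ∧ ∃ M : ℕ, ∀ n, M ≤ n →
      ε ≤ |(|(h (n + 1) : ℝ)| / |(h n : ℝ)|) - (q : ℝ)|) ∧
    (∀ k i : ℕ, Irrational (liminf (fun n : ℕ =>
      |(h (2 ^ k * n + i + 1) : ℝ)| / |(h (2 ^ k * n + i) : ℝ)|) atTop)) := by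
  refine ⟨isolated, ?_⟩
  intro k i
  rintro ⟨q, hq⟩
  set f : ℕ → ℝ := fun n => |(h (2 ^ k * n + i + 1) : ℝ)| / |(h (2 ^ k * n + i) : ℝ)| with hf
  have hfr : ∀ n, f n = rho (2 ^ k * n + i) := fun n => rfl
  obtain ⟨ε, hε, M, hM⟩ := isolated q
  have hge : ∀ n, n ≤ 2 ^ k * n + i := by
    intro n
    calc n = 1 * n := by ring
      _ ≤ 2 ^ k * n := Nat.mul_le_mul_right _ Nat.one_le_two_pow
      _ ≤ _ := Nat.le_add_right _ _
  have hbdd : IsBoundedUnder (· ≥ ·) atTop f :=
    isBoundedUnder_of ⟨0, fun n => by rw [hfr]; exact rho_nonneg _⟩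
  have hbddle : IsBoundedUnder (· ≤ ·) atTop f := by
    refine ⟨5, ?_⟩
    rw [eventually_map]
    filter_upwards [eventually_ge_atTop 5] with n hn
    rw [hfr]
    exact rho_le _ (hn.trans (hge n))
  have hcob : IsCoboundedUnder (· ≥ ·) atTop f := hbddle.isCoboundedUnder_ge
  have h1 : ∃ᶠ n in atTop, f n < q + ε := by
    apply frequently_lt_of_liminf_lt hcob
    rw [← hq]
    linarith
  have h2 : ∀ᶠ n in atTop, (q : ℝ) - ε < f n := by
    apply eventually_lt_of_lt_liminf _ hbdd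
    rw [← hq]
    linarith
  obtain ⟨n, hn1, hn2, hn3⟩ := (h1.and_eventually (h2.and (eventually_ge_atTop M))).exists
  have h3 := hM (2 ^ k * n + i) (hn3.trans (hge n))
  rw [← hfr] at h3
  have h4 : |f n - q| < ε := by
    rw [abs_lt]
    constructor <;> linarith
  linarith

end Pool.Agent.Results.MP_e68cb8_nt.LiminfIrrational
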