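import Mathlib
import Pool.Agent.X1.TMFibRatio

/-!
# Minimal ratios along arithmetic progressions of the Thue–Morse-twisted Fibonacci sequence
-/

set_option autoImplicit false

namespace Pool.Agent.Results.MP_e68cb8_nt.MinimalRatios

open Pool.Agent.X1.TMFib

/-! ### Möbius maps -/

lemma mob_le {a b c d x y : ℚ} (hxy : x ≤ y) (hx : 0 < c * x + d) (hy : 0 < c * y + d)
    (hD : 0 ≤ a * d - b * c) : (a * x + b) / (c * x + d) ≤ (a * y + b) / (c * y + d) := by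
  rw [div_le_div_iff₀ hx hy]
  nlinarith [mul_nonneg hD (sub_nonneg.2 hxy)]

lemma mob_ge {a b c d x y : ℚ} (hxy : x ≤ y) (hx : 0 < c * x + d) (hy : 0 < c * y + d)
    (hD : a * d - b * c ≤ 0) : (a * y + b) / (c * y + d) ≤ (a * x + b) / (c * x + d) := by
  rw [div_le_div_iff₀ hy hx]
  nlinarith [mul_nonneg (neg_nonneg.2 hD) (sub_nonneg.2 hxy)]

/-! ### The ratios at multiples of `2^K` -/

/-- `x_a = G(2^K a) / G(2^K a - 1)`, with `x_0 = 0`. -/
def x (K a : ℕ) : ℚ := (G (2 ^ K * a) : ℚ) / (V (2 ^ K * a) : ℚ)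

lemma ne_one (K a : ℕ) (hK : 1 ≤ K) : 2 ^ K * a ≠ 1 := by
  intro h
  have h1 := Nat.eq_one_of_mul_eq_one_right h
  have h2 : 2 ≤ 2 ^ K := by
    calc 2 = 2 ^ 1 := by norm_num
      _ ≤ 2 ^ K := Nat.pow_le_pow_right (by norm_num) hK
  omega

lemma Vpos (K a : ℕ) (hK : 1 ≤ K) : (0 : ℚ) < (V (2 ^ K * a) : ℚ) := by
  have := V_pos (2 ^ K * a) (ne_one K a hK)
  exact_mod_cast (by omega : 0 < V (2 ^ K * a))

lemma x_zero (K : ℕ) : x K 0 = 0 := by simp [x, G_zero]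

lemma x_nonneg (K a : ℕ) : 0 ≤ x K a :=
  div_nonneg (by exact_mod_cast G_nonneg _) (by exact_mod_cast V_nonneg _)

lemma x_pos (K a : ℕ) (hK : 1 ≤ K) (ha : 1 ≤ a) : 0 < x K a := by
  apply div_pos _ (Vpos K a hK)
  have := G_pos (2 ^ K * a) (Nat.mul_pos (by positivity) ha)
  exact_mod_cast (by omega : 0 < G (2 ^ K * a))

lemma x_double (K a : ℕ) : x K (2 * a) = x (K + 1) a := by
  unfold x
  rw [show 2 ^ K * (2 * a) = 2 ^ (K + 1) * a by ring]

/-- `(G(2^K a + b) : ℚ) = V(2^K a) (X_b x_a + G_b)`. -/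
lemma G_eq_x (K a b : ℕ) (hK : 1 ≤ K) (hb : b < 2 ^ K) :
    (G (2 ^ K * a + b) : ℚ) = V (2 ^ K * a) * (sol 1 0 b * x K a + G b) := by
  have hV := Vpos K a hK
  rw [transfer K a b hK hb]
  push_cast
  unfold x
  field_simp

/-- The Möbius map `ψ`. -/
def psi (K : ℕ) (y : ℚ) : ℚ :=
  ((sol 1 0 (2 ^ K - 2) : ℚ) * y + (G (2 ^ K - 2) : ℚ)) /
    ((sol 1 0 (2 ^ K - 1) : ℚ) * y + (G (2 ^ K - 1) : ℚ))

lemma two_le_pow (K : ℕ) (hK : 1 ≤ K) : 2 ≤ 2 ^ K := by
  calc 2 = 2 ^ 1 := by norm_num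
    _ ≤ 2 ^ K := Nat.pow_le_pow_right (by norm_num) hK

lemma solX_nonneg (b : ℕ) : (0 : ℚ) ≤ (sol 1 0 b : ℚ) := by
  exact_mod_cast sol_nonneg' 1 0 zero_le_one le_rfl b

lemma Gq_nonneg (b : ℕ) : (0 : ℚ) ≤ (G b : ℚ) := by exact_mod_cast G_nonneg b

lemma Gq_pos (b : ℕ) (hb : 1 ≤ b) : (0 : ℚ) < (G b : ℚ) := by
  have := G_pos b hb
  exact_mod_cast (by omega : 0 < G b)

lemma den_pos (b : ℕ) (hb : 1 ≤ b) (y : ℚ) (hy : 0 ≤ y) : 0 < (sol 1 0 b : ℚ) * y + (G b : ℚ) := by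
  have h1 := mul_nonneg (solX_nonneg b) hy
  have h2 := Gq_pos b hb
  linarith

lemma psi_nonneg (K : ℕ) (y : ℚ) (hy : 0 ≤ y) : 0 ≤ psi K y := by
  unfold psi
  apply div_nonneg
  · have h1 := mul_nonneg (solX_nonneg (2 ^ K - 2)) hy
    have h2 := Gq_nonneg (2 ^ K - 2)
    linarith
  · have h1 := mul_nonneg (solX_nonneg (2 ^ K - 1)) hy
    have h2 := Gq_nonneg (2 ^ K - 1)
    linarith

/-- `ψ(x_a) = G(N - 2) / G(N - 1)` with `N = 2^K (a + 1)`. -/
lemma psi_x (K a : ℕ) (hK : 1 ≤ K) : psi K (x K a)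
    = (G (2 ^ K * a + (2 ^ K - 2)) : ℚ) / (G (2 ^ K * a + (2 ^ K - 1)) : ℚ) := by
  have h2 := two_le_pow K hK
  rw [G_eq_x K a _ hK (by omega), G_eq_x K a _ hK (by omega)]
  unfold psi
  rw [mul_div_mul_left _ _ (Vpos K a hK).ne']

lemma G_top (K a : ℕ) (hK : 1 ≤ K) : G (2 ^ K * (a + 1)) = G (2 ^ K * a + (2 ^ K - 1))
    + p (2 ^ K * (a + 1)) * G (2 ^ K * a + (2 ^ K - 2)) := by
  have h2 := two_le_pow K hK
  have h := G_rec (2 ^ K * a + (2 ^ K - 2))
  have e1 : 2 ^ K * a + (2 ^ K - 2) + 2 = 2 ^ K * (a + 1) := by rw [Nat.mul_add, Nat.mul_one]; omega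
  have e2 : 2 ^ K * a + (2 ^ K - 2) + 1 = 2 ^ K * a + (2 ^ K - 1) := by omega
  rw [e1, e2] at h
  exact h

lemma V_top (K a : ℕ) (hK : 1 ≤ K) : V (2 ^ K * (a + 1)) = G (2 ^ K * a + (2 ^ K - 1)) := by
  have h2 := two_le_pow K hK
  have e1 : 2 ^ K * (a + 1) = (2 ^ K * a + (2 ^ K - 1)) + 1 := by rw [Nat.mul_add, Nat.mul_one]; omega
  rw [e1, V_succ]

lemma x_succ (K a : ℕ) (hK : 1 ≤ K) : x K (a + 1) = 1 + p (2 ^ K * (a + 1)) * psi K (x K a) := by
  have h2 := two_le_pow K hK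
  rw [psi_x K a hK]
  unfold x
  rw [V_top K a hK, G_top K a hK]
  have h3 := Gq_pos (2 ^ K * a + (2 ^ K - 1)) (by omega)
  push_cast
  field_simp

/-! ### Signs -/

lemma p_pow_mul_odd (K c : ℕ) : p (2 ^ K * (2 * c + 1)) = (-1) ^ K := by
  unfold p
  rw [padicValNat.mul (by positivity) (by omega), padicValNat.prime_pow,
    padicValNat.eq_zero_of_not_dvd (by omega), add_zero]

/-- The determinant `X_b G_{b-1} - X_{b-1} G_b` is multiplied by `- p b` at each step. -/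
def det (b : ℕ) : ℤ := sol 1 0 (b + 1) * G b - sol 1 0 b * G (b + 1)

lemma det_zero : det 0 = -1 := by simp [det, sol, G_zero, G_one]

lemma det_succ (b : ℕ) : det (b + 1) = - p (b + 2) * det b := by
  unfold det
  rw [sol_rec, G_rec]
  ring

lemma det_prod (b : ℕ) : det b = ∏ i ∈ Finset.range (b + 1), (- p (i + 1)) := by
  induction b with
  | zero => rw [det_zero]; simp [p]
  | succ b ih => rw [det_succ, Finset.prod_range_succ, ← ih]; ring

lemma prod_pow (K : ℕ) (hK : 1 ≤ K) : ∏ i ∈ Finset.range (2 ^ K - 1), (- p (i + 1)) = (-1) ^ K := by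
  induction K with
  | zero => omega
  | succ K ih =>
    rcases Nat.eq_zero_or_pos K with h0 | h0
    · subst h0
      simp [p]
    · have h1 := ih h0
      have h2 : 2 ^ (K + 1) - 1 = (2 ^ K - 1) + (1 + (2 ^ K - 1)) := by
        have : 1 ≤ 2 ^ K := Nat.one_le_two_pow
        rw [pow_succ]
        omega
      rw [h2, Finset.prod_range_add, h1, Finset.prod_range_add]
      have h3 : ∀ i ∈ Finset.range (2 ^ K - 1), - p (2 ^ K - 1 + (1 + i) + 1) = - p (i + 1) := by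
        intro i hi
        rw [Finset.mem_range] at hi
        have h4 : 2 ^ K - 1 + (1 + i) + 1 = 2 ^ K * 1 + (i + 1) := by
          have : 1 ≤ 2 ^ K := Nat.one_le_two_pow
          omega
        rw [h4, p_add K 1 (i + 1) (by omega) (by omega)]
      rw [Finset.prod_congr rfl h3, h1]
      have h5 : 2 ^ K - 1 + 0 + 1 = 2 ^ K * (2 * 0 + 1) := by
        have : 1 ≤ 2 ^ K := Nat.one_le_two_pow
        omega
      rw [Finset.prod_range_one, h5, p_pow_mul_odd]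
      have h6 : ((-1 : ℤ) ^ K) * (-1) ^ K = 1 := by rw [← mul_pow]; simp
      rw [pow_succ]
      linear_combination (-(-1 : ℤ) ^ K) * h6

lemma det_K (K : ℕ) (hK : 1 ≤ K) :
    sol 1 0 (2 ^ K - 1) * G (2 ^ K - 2) - sol 1 0 (2 ^ K - 2) * G (2 ^ K - 1) = (-1) ^ K := by
  have h2 := two_le_pow K hK
  have h := det_prod (2 ^ K - 2)
  have e : 2 ^ K - 2 + 1 = 2 ^ K - 1 := by omega
  rw [e, prod_pow K hK] at h
  unfold det at h
  rw [e] at h
  exact h

lemma psi_anti (K : ℕ) (hK : 1 ≤ K) (hev : Even K) {y z : ℚ} (hy : 0 ≤ y) (hyz : y ≤ z) :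
    psi K z ≤ psi K y := by
  have h2 := two_le_pow K hK
  unfold psi
  apply mob_ge hyz (den_pos _ (by omega) _ hy) (den_pos _ (by omega) _ (hy.trans hyz))
  have h := det_K K hK
  rw [hev.neg_one_pow] at h
  have h' : (sol 1 0 (2 ^ K - 1) : ℚ) * G (2 ^ K - 2) - sol 1 0 (2 ^ K - 2) * G (2 ^ K - 1) = 1 := by
    exact_mod_cast h
  linarith

lemma psi_mono (K : ℕ) (hK : 1 ≤ K) (hodd : Odd K) {y z : ℚ} (hy : 0 ≤ y) (hyz : y ≤ z) :
    psi K y ≤ psi K z := by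
  have h2 := two_le_pow K hK
  unfold psi
  apply mob_le hyz (den_pos _ (by omega) _ hy) (den_pos _ (by omega) _ (hy.trans hyz))
  have h := det_K K hK
  rw [hodd.neg_one_pow] at h
  have h' : (sol 1 0 (2 ^ K - 1) : ℚ) * G (2 ^ K - 2) - sol 1 0 (2 ^ K - 2) * G (2 ^ K - 1) = -1 := by
    exact_mod_cast h
  linarith

/-! ### Extremal values -/

lemma x_le_of_p (K a : ℕ) (hK : 1 ≤ K) : x K (a + 1) ≤ 1 + psi K (x K a) := by
  rw [x_succ K a hK]
  have h := psi_nonneg K (x K a) (x_nonneg K a)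
  rcases p_pm (2 ^ K * (a + 1)) with h1 | h1 <;> rw [h1] <;> push_cast <;> linarith

lemma max_even (K : ℕ) (hK : 1 ≤ K) (hev : Even K) (a : ℕ) : x K a ≤ x K 1 := by
  rcases Nat.eq_zero_or_pos a with rfl | ha
  · rw [x_zero]; exact x_nonneg K 1
  · obtain ⟨c, rfl⟩ : ∃ c, a = c + 1 := ⟨a - 1, by omega⟩
    have h1 : x K 1 = 1 + psi K (x K 0) := by
      have h := x_succ K 0 hK
      have hp : p (2 ^ K * (0 + 1)) = 1 := by
        have := p_pow_mul_odd K 0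
        simp only [Nat.mul_zero, Nat.zero_add] at this ⊢
        rw [this, hev.neg_one_pow]
      rw [hp] at h
      simpa using h
    rw [h1]
    refine (x_le_of_p K c hK).trans ?_
    have := psi_anti K hK hev (by rw [x_zero] : (0:ℚ) ≤ x K 0) (by rw [x_zero]; exact x_nonneg K c : x K 0 ≤ x K c)
    linarith

lemma max_odd (K : ℕ) (hK : 1 ≤ K) (hodd : Odd K) (a : ℕ) : x K a ≤ x K 2 := by
  have h2 : x K 2 = x (K + 1) 1 := x_double K 1
  obtain ⟨c, hc | hc⟩ := Nat.even_or_odd' a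
  · rw [hc, x_double, h2]
    exact max_even (K + 1) (by omega) (hodd.add_odd odd_one) c
  · -- odd `a`: `x ≤ 1 ≤ x 2`
    have h3 : x K a ≤ 1 := by
      rw [hc, x_succ K (2 * c) hK, p_pow_mul_odd, hodd.neg_one_pow]
      have := psi_nonneg K (x K (2 * c)) (x_nonneg K _)
      push_cast
      linarith
    have h4 : 1 ≤ x K 2 := by
      have h := x_succ (K + 1) 0 (by omega)
      have hp : p (2 ^ (K + 1) * (0 + 1)) = 1 := by
        have := p_pow_mul_odd (K + 1) 0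
        simp only [Nat.mul_zero, Nat.zero_add] at this ⊢
        rw [this, (hodd.add_odd odd_one).neg_one_pow]
      rw [hp] at h
      rw [h2, show (1 : ℕ) = 0 + 1 by rfl, h]
      have := psi_nonneg (K + 1) (x (K + 1) 0) (x_nonneg _ _)
      push_cast
      linarith
    exact h3.trans h4

lemma min_odd (K : ℕ) (hK : 1 ≤ K) (hodd : Odd K) (a : ℕ) (ha : 1 ≤ a) : x K 3 ≤ x K a := by
  obtain ⟨c, rfl⟩ : ∃ c, a = c + 1 := ⟨a - 1, by omega⟩
  have h3 : x K 3 = 1 - psi K (x K 2) := by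
    have h := x_succ K 2 hK
    have hp : p (2 ^ K * (2 + 1)) = -1 := by
      have := p_pow_mul_odd K 1
      rw [hodd.neg_one_pow] at this
      exact this
    rw [hp] at h
    rw [h]
    push_cast
    ring
  rw [h3, x_succ K c hK]
  have h4 := psi_nonneg K (x K 2) (x_nonneg _ _)
  have h5 := psi_nonneg K (x K c) (x_nonneg _ _)
  have h6 := psi_mono K hK hodd (x_nonneg K c) (max_odd K hK hodd c)
  rcases p_pm (2 ^ K * (c + 1)) with h1 | h1 <;> rw [h1] <;> push_cast <;> linarith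

lemma min_even (K : ℕ) (hK : 1 ≤ K) (hev : Even K) (a : ℕ) (ha : 1 ≤ a) : x K 6 ≤ x K a := by
  have h6 : x K 6 = x (K + 1) 3 := x_double K 3
  have h63 : x (K + 1) 3 ≤ 1 := by
    have h := x_succ (K + 1) 2 (by omega)
    have hp : p (2 ^ (K + 1) * (2 + 1)) = -1 := by
      have := p_pow_mul_odd (K + 1) 1
      rw [(hev.add_odd odd_one).neg_one_pow] at this
      exact this
    rw [hp] at h
    rw [show (3 : ℕ) = 2 + 1 by rfl, h]
    have := psi_nonneg (K + 1) (x (K + 1) 2) (x_nonneg _ _)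
    push_cast
    linarith
  obtain ⟨c, hc | hc⟩ := Nat.even_or_odd' a
  · rw [hc, x_double, h6]
    exact min_odd (K + 1) (by omega) (hev.add_odd odd_one) c (by omega)
  · rw [h6]
    refine h63.trans ?_
    rw [hc, x_succ K (2 * c) hK, p_pow_mul_odd, hev.neg_one_pow]
    have := psi_nonneg K (x K (2 * c)) (x_nonneg K _)
    push_cast
    linarith

lemma exists_max (K : ℕ) (hK : 1 ≤ K) : ∃ A, 1 ≤ A ∧ ∀ a, x K a ≤ x K A := by
  rcases Nat.even_or_odd K with h | h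
  · exact ⟨1, le_rfl, max_even K hK h⟩
  · exact ⟨2, by norm_num, max_odd K hK h⟩

lemma exists_min (K : ℕ) (hK : 1 ≤ K) : ∃ A, 1 ≤ A ∧ ∀ a, 1 ≤ a → x K A ≤ x K a := by
  rcases Nat.even_or_odd K with h | h
  · exact ⟨6, by norm_num, min_even K hK h⟩
  · exact ⟨3, by norm_num, min_odd K hK h⟩

/-- A Möbius function of `x_n` attains its minimum over `n ≥ n₀`, `n₀ ∈ {0, 1}`. -/
lemma attain (K n0 : ℕ) (hK : 1 ≤ K) (hn0 : n0 ≤ 1) (a b c d : ℚ)
    (hpos : ∀ n, n0 ≤ n → 0 < c * x K n + d) :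
    ∃ N, n0 ≤ N ∧ ∀ n, n0 ≤ n → (a * x K N + b) / (c * x K N + d) ≤ (a * x K n + b) / (c * x K n + d) := by
  rcases le_total 0 (a * d - b * c) with hD | hD
  · have hmin : ∃ N, n0 ≤ N ∧ ∀ n, n0 ≤ n → x K N ≤ x K n := by
      rcases Nat.eq_zero_or_pos n0 with h0 | h0
      · exact ⟨0, by omega, fun n _ => by rw [x_zero]; exact x_nonneg K n⟩
      · obtain ⟨A, hA1, hA2⟩ := exists_min K hK
        exact ⟨A, by omega, fun n hn => hA2 n (by omega)⟩
    obtain ⟨N, hN1, hN2⟩ := hmin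
    exact ⟨N, hN1, fun n hn => mob_le (hN2 n hn) (hpos N hN1) (hpos n hn) hD⟩
  · obtain ⟨A, hA1, hA2⟩ := exists_max K hK
    exact ⟨A, by omega, fun n hn => mob_ge (hA2 n) (hpos n hn) (hpos A (by omega)) hD⟩

/-! ### The ratios -/

/-- `ρ_{m+1} = |h_{m+1}| / |h_m|`. -/
def rr (m : ℕ) : ℚ := |(h (m + 1) : ℚ)| / |(h m : ℚ)|

lemma abs_h_even' (N : ℕ) : |(h (2 * N) : ℚ)| = G N := by
  have : |h (2 * N)| = G N := by rw [abs_h_even, abs_of_nonneg (G_nonneg N)]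
  exact_mod_cast this

lemma abs_h_odd' (N : ℕ) : |(h (2 * N + 3) : ℚ)| = G N := by
  have : |h (2 * N + 3)| = G N := by rw [abs_h_odd, abs_of_nonneg (G_nonneg N)]
  exact_mod_cast this

lemma rr_even (N : ℕ) : rr (2 * (N + 1)) = (G N : ℚ) / (G (N + 1) : ℚ) := by
  unfold rr
  rw [show 2 * (N + 1) + 1 = 2 * N + 3 by ring, abs_h_odd', abs_h_even']

lemma rr_odd (N : ℕ) : rr (2 * N + 3) = (G (N + 2) : ℚ) / (G N : ℚ) := by
  unfold rr
  rw [show 2 * N + 3 + 1 = 2 * (N + 2) by ring, abs_h_odd', abs_h_even']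

lemma G6 : G 6 = 2 := by decide
lemma G7 : G 7 = 7 := by decide

lemma case_one_zero (n : ℕ) (hn : 2 ≤ n) : rr (2 ^ 1 * 7 + 0) ≤ rr (2 ^ 1 * n + 0) := by
  obtain ⟨m, rfl⟩ : ∃ m, n = m + 2 := ⟨n - 2, by omega⟩
  rw [show 2 ^ 1 * 7 + 0 = 2 * (6 + 1) by norm_num, show 2 ^ 1 * (m + 2) + 0 = 2 * ((m + 1) + 1) by ring,
    rr_even, rr_even, G6, G7]
  have h1 := Gq_pos (m + 1 + 1) (by omega)
  have h2 : 2 * (G (m + 2) : ℚ) ≤ 7 * G (m + 1) := by exact_mod_cast G_le_seven m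
  rw [div_le_div_iff₀ (by norm_num) h1]
  push_cast
  linarith

lemma case_one_one (n : ℕ) (hn : 2 ≤ n) : rr (2 ^ 1 * 5 + 1) ≤ rr (2 ^ 1 * n + 1) := by
  obtain ⟨m, rfl⟩ : ∃ m, n = m + 2 := ⟨n - 2, by omega⟩
  rw [show 2 ^ 1 * 5 + 1 = 2 * 4 + 3 by norm_num, show 2 ^ 1 * (m + 2) + 1 = 2 * (m + 1) + 3 by ring,
    rr_odd, rr_odd, G6, G_four]
  have h1 := Gq_pos (m + 1) (by omega)
  have h2 : 2 * (G (m + 1) : ℚ) ≤ 3 * G (m + 1 + 2) := by exact_mod_cast G_skip (m + 1)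
  rw [div_le_div_iff₀ (by norm_num) h1]
  push_cast
  linarith

lemma case_zero (K n : ℕ) (hK : 1 ≤ K) (hn : 1 ≤ n) : rr (2 ^ (K + 1) * n + 0) = (x K n)⁻¹ := by
  have h0 : 1 ≤ 2 ^ K * n := Nat.mul_pos (by positivity) hn
  obtain ⟨N, hN⟩ : ∃ N, 2 ^ K * n = N + 1 := ⟨2 ^ K * n - 1, by omega⟩
  rw [show 2 ^ (K + 1) * n + 0 = 2 * (2 ^ K * n) by ring]
  unfold x
  rw [hN, rr_even, V_succ, inv_div]

lemma case_even (K n b : ℕ) (hK : 1 ≤ K) (hb : b + 1 < 2 ^ K) : rr (2 ^ (K + 1) * n + 2 * (b + 1))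
    = ((sol 1 0 b : ℚ) * x K n + (G b : ℚ)) / ((sol 1 0 (b + 1) : ℚ) * x K n + (G (b + 1) : ℚ)) := by
  rw [show 2 ^ (K + 1) * n + 2 * (b + 1) = 2 * ((2 ^ K * n + b) + 1) by ring, rr_even,
    G_eq_x K n b hK (by omega), show 2 ^ K * n + b + 1 = 2 ^ K * n + (b + 1) by ring,
    G_eq_x K n (b + 1) hK hb, mul_div_mul_left _ _ (Vpos K n hK).ne']

lemma case_odd (K n b : ℕ) (hK : 1 ≤ K) (hb : b + 2 < 2 ^ K) : rr (2 ^ (K + 1) * n + (2 * (b + 1) + 1))
    = ((sol 1 0 (b + 2) : ℚ) * x K n + (G (b + 2) : ℚ)) / ((sol 1 0 b : ℚ) * x K n + (G b : ℚ)) := by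
  rw [show 2 ^ (K + 1) * n + (2 * (b + 1) + 1) = 2 * (2 ^ K * n + b) + 3 by ring, rr_odd,
    G_eq_x K n b hK (by omega), show 2 ^ K * n + b + 2 = 2 ^ K * n + (b + 2) by ring,
    G_eq_x K n (b + 2) hK hb, mul_div_mul_left _ _ (Vpos K n hK).ne']

lemma case_one' (K n : ℕ) (hK : 1 ≤ K) (hn : 1 ≤ n) : rr (2 ^ (K + 1) * n + 1)
    = (1 * x K n + 1) / (0 * x K n + 1) := by
  have h0 : 1 ≤ 2 ^ K * n := Nat.mul_pos (by positivity) hn
  obtain ⟨N, hN⟩ : ∃ N, 2 ^ K * n = N + 1 := ⟨2 ^ K * n - 1, by omega⟩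
  have h2 := two_le_pow K hK
  rw [show 2 ^ (K + 1) * n + 1 = 2 * N + 3 by rw [pow_succ, Nat.mul_comm (2 ^ K) 2, Nat.mul_assoc, hN]; ring,
    rr_odd]
  have h1 := G_eq_x K n 1 hK (by omega)
  have h3 : 2 ^ K * n + 1 = N + 2 := by omega
  have hV : V (2 ^ K * n) = G N := by rw [hN, V_succ]
  have hpos := Vpos K n hK
  rw [h3, hV, G_one] at h1
  rw [hV] at hpos
  rw [h1]
  simp only [sol]
  push_cast
  field_simp
  ring

lemma special (K n : ℕ) (hK : 1 ≤ K) (hn : 1 ≤ n ∨ 2 ≤ K) : rr (2 ^ (K + 1) * n + (2 ^ (K + 1) - 1))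
    = (psi K (x K n))⁻¹ + p (2 ^ K * (n + 1)) ∧ 0 < psi K (x K n) := by
  have h2 := two_le_pow K hK
  have hidx : 1 ≤ 2 ^ K * n + (2 ^ K - 2) := by
    rcases hn with h | h
    · have : 1 ≤ 2 ^ K * n := Nat.mul_pos (by positivity) h
      omega
    · have : 2 ^ 2 ≤ 2 ^ K := Nat.pow_le_pow_right (by norm_num) h
      omega
  have e1 : 2 ^ (K + 1) * n + (2 ^ (K + 1) - 1) = 2 * (2 ^ K * n + (2 ^ K - 2)) + 3 := by
    have : 2 ^ (K + 1) = 2 * 2 ^ K := by ring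
    rw [this, Nat.mul_assoc]
    omega
  have e2 : 2 ^ K * n + (2 ^ K - 2) + 2 = 2 ^ K * (n + 1) := by rw [Nat.mul_add, Nat.mul_one]; omega
  have h3 := Gq_pos _ hidx
  have h4 := Gq_pos (2 ^ K * n + (2 ^ K - 1)) (by omega)
  rw [e1, rr_odd, e2, G_top K n hK, psi_x K n hK, inv_div]
  refine ⟨?_, div_pos h3 h4⟩
  push_cast
  field_simp

lemma special_odd (K n : ℕ) (hK : 1 ≤ K) (hodd : Odd K) (hn : 1 ≤ n ∨ 2 ≤ K) :
    rr (2 ^ (K + 1) * 2 + (2 ^ (K + 1) - 1)) ≤ rr (2 ^ (K + 1) * n + (2 ^ (K + 1) - 1)) := by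
  obtain ⟨h1, h2⟩ := special K n hK hn
  obtain ⟨h3, h4⟩ := special K 2 hK (Or.inl (by norm_num))
  rw [h1, h3]
  have hp : p (2 ^ K * (2 + 1)) = -1 := by
    have := p_pow_mul_odd K 1
    rw [hodd.neg_one_pow] at this
    exact this
  have h5 := psi_mono K hK hodd (x_nonneg K n) (max_odd K hK hodd n)
  have h6 : (psi K (x K 2))⁻¹ ≤ (psi K (x K n))⁻¹ := inv_anti₀ h2 h5
  rw [hp]
  rcases p_pm (2 ^ K * (n + 1)) with h | h <;> rw [h] <;> push_cast <;> linarith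

lemma psi_inv_bounds (K n : ℕ) (hK : 2 ≤ K) : 2 ≤ (psi K (x K n))⁻¹ ∧ (psi K (x K n))⁻¹ ≤ 7 / 2 := by
  obtain ⟨q, hq⟩ : ∃ q, 2 ^ K * n + (2 ^ K - 2) = 4 * q + 2 := by
    obtain ⟨K', rfl⟩ : ∃ K', K = K' + 2 := ⟨K - 2, by omega⟩
    refine ⟨2 ^ K' * n + (2 ^ K' - 1), ?_⟩
    have h1 : 2 ^ (K' + 2) = 4 * 2 ^ K' := by ring
    have h2 : 1 ≤ 2 ^ K' := Nat.one_le_two_pow
    rw [h1, Nat.mul_assoc]
    omega
  have h4 := two_le_pow K (by omega)
  rw [psi_x K n (by omega), inv_div, show 2 ^ K * n + (2 ^ K - 1) = 4 * q + 3 by omega, hq]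
  obtain ⟨h1, h2, -, -, h5, h6, h7, -, -⟩ := G_block q
  have h8 := G_le_seven (4 * q + 1)
  rw [show 4 * q + 1 + 2 = 4 * q + 3 by ring, show 4 * q + 1 + 1 = 4 * q + 2 by ring] at h8
  have h9 := Gq_pos (4 * q + 2) (by omega)
  constructor
  · rw [le_div_iff₀ h9]
    exact_mod_cast (by omega : 2 * G (4 * q + 2) ≤ G (4 * q + 3))
  · rw [div_le_div_iff₀ h9 (by norm_num)]
    exact_mod_cast (by omega : G (4 * q + 3) * 2 ≤ 7 * G (4 * q + 2))

lemma special_even (K n : ℕ) (hK : 2 ≤ K) (hev : Even K) :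
    rr (2 ^ (K + 1) * 5 + (2 ^ (K + 1) - 1)) ≤ rr (2 ^ (K + 1) * n + (2 ^ (K + 1) - 1)) := by
  have hK1 : 1 ≤ K := by omega
  obtain ⟨h1, h2⟩ := special K n hK1 (Or.inr hK)
  obtain ⟨h3, h4⟩ := special K 5 hK1 (Or.inr hK)
  rw [h1, h3]
  have hp : p (2 ^ K * (5 + 1)) = -1 := by
    have := p_pow_mul_odd (K + 1) 1
    rw [(hev.add_odd odd_one).neg_one_pow] at this
    rw [← this]
    congr 1
    ring
  rw [hp]
  rcases p_pm (2 ^ K * (n + 1)) with h | h
  · -- positive sign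
    have h5 := psi_inv_bounds K n hK
    have h6 := psi_inv_bounds K 5 hK
    rw [h]
    push_cast
    linarith [h5.1, h6.2]
  · -- negative sign: `n` is odd
    obtain ⟨c, hc | hc⟩ := Nat.even_or_odd' n
    · exfalso
      rw [hc, p_pow_mul_odd, hev.neg_one_pow] at h
      norm_num at h
    · have h5 : x K n = 1 + psi K (x K (2 * c)) := by
        rw [hc, x_succ K (2 * c) hK1, p_pow_mul_odd, hev.neg_one_pow]
        push_cast
        ring
      have h6 : x K 5 = 1 + psi K (x K 4) := by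
        rw [show (5 : ℕ) = 2 * 2 + 1 by norm_num, x_succ K (2 * 2) hK1, p_pow_mul_odd, hev.neg_one_pow]
        push_cast
        ring_nf
      have h7 : x K (2 * c) ≤ x K 4 := by
        rw [x_double, show (4 : ℕ) = 2 * 2 by norm_num, x_double]
        exact max_odd (K + 1) (by omega) (hev.add_odd odd_one) c
      have h8 := psi_anti K hK1 hev (x_nonneg K (2 * c)) h7
      have h9 : x K 5 ≤ x K n := by rw [h5, h6]; linarith
      have h10 := psi_anti K hK1 hev (x_nonneg K 5) h9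
      have h11 : (psi K (x K 5))⁻¹ ≤ (psi K (x K n))⁻¹ := inv_anti₀ h2 h10
      rw [h]
      push_cast
      linarith

/-- In every class `2^k n + i + 1` the smallest ratio is attained. -/
theorem attained (k i : ℕ) (hk : 1 ≤ k) (hi : i < 2 ^ k) : ∃ N, 4 ≤ 2 ^ k * N + i ∧
    ∀ n, 4 ≤ 2 ^ k * n + i → rr (2 ^ k * N + i) ≤ rr (2 ^ k * n + i) := by
  obtain ⟨K, rfl⟩ : ∃ K, k = K + 1 := ⟨k - 1, by omega⟩
  rcases Nat.eq_zero_or_pos K with h0 | hK
  · subst h0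
    have h2 : i = 0 ∨ i = 1 := by simp at hi; omega
    rcases h2 with rfl | rfl
    · exact ⟨7, by norm_num, fun n hn => case_one_zero n (by simp at hn; omega)⟩
    · exact ⟨5, by norm_num, fun n hn => case_one_one n (by simp at hn; omega)⟩
  · have hK1 : 1 ≤ K := hK
    have h2 := two_le_pow K hK1
    have hpow : 2 ^ (K + 1) = 2 * 2 ^ K := by ring
    have h1n : ∀ n, 1 ≤ n → 4 ≤ 2 ^ (K + 1) * n := by
      intro n hn
      calc 4 = 4 * 1 := by norm_num
        _ ≤ 2 ^ (K + 1) * n := Nat.mul_le_mul (by omega) hn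
    have hn1 : ∀ n, i ≤ 3 → 4 ≤ 2 ^ (K + 1) * n + i → 1 ≤ n := by
      intro n hi3 hn
      by_contra hcon
      have : n = 0 := by omega
      subst this
      omega
    obtain ⟨b, hb | hb⟩ := Nat.even_or_odd' i
    · rcases Nat.eq_zero_or_pos b with hb0 | hb0
      · -- `i = 0`
        subst hb0
        have hi0 : i = 0 := by omega
        subst hi0
        obtain ⟨A, hA1, hA2⟩ := exists_max K hK1
        refine ⟨A, by have := h1n A hA1; omega, fun n hn => ?_⟩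
        have hn' := hn1 n (by omega) hn
        rw [case_zero K A hK1 hA1, case_zero K n hK1 hn']
        exact inv_anti₀ (x_pos K n hK1 hn') (hA2 n)
      · obtain ⟨b', rfl⟩ : ∃ b', b = b' + 1 := ⟨b - 1, by omega⟩
        have hblt : b' + 1 < 2 ^ K := by omega
        set n0 : ℕ := if b' = 0 then 1 else 0 with hn0
        have hn0le : n0 ≤ 1 := by rw [hn0]; split_ifs <;> omega
        obtain ⟨N, hN1, hN2⟩ := attain K n0 hK1 hn0le (sol 1 0 b' : ℚ) (G b' : ℚ)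
          (sol 1 0 (b' + 1) : ℚ) (G (b' + 1) : ℚ) (fun n _ => den_pos _ (by omega) _ (x_nonneg K n))
        refine ⟨N, ?_, fun n hn => ?_⟩
        · rcases Nat.eq_zero_or_pos b' with h | h
          · rw [hn0, if_pos h] at hN1
            have := h1n N hN1
            omega
          · omega
        · rw [hb, case_even K N b' hK1 hblt, case_even K n b' hK1 hblt]
          apply hN2
          rw [hn0]
          split_ifs with h
          · exact hn1 n (by omega) hn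
          · omega
    · rcases Nat.eq_zero_or_pos b with hb0 | hb0
      · -- `i = 1`
        subst hb0
        have hi0 : i = 1 := by omega
        subst hi0
        obtain ⟨N, hN1, hN2⟩ := attain K 1 hK1 le_rfl 1 1 0 1 (fun n _ => by norm_num)
        refine ⟨N, by have := h1n N hN1; omega, fun n hn => ?_⟩
        have hn' := hn1 n (by omega) hn
        rw [case_one' K N hK1 hN1, case_one' K n hK1 hn']
        exact hN2 n hn'
      · obtain ⟨b', rfl⟩ : ∃ b', b = b' + 1 := ⟨b - 1, by omega⟩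
        rcases Nat.lt_or_ge (b' + 2) (2 ^ K) with hlt | hge
        · set n0 : ℕ := if b' = 0 then 1 else 0 with hn0
          have hn0le : n0 ≤ 1 := by rw [hn0]; split_ifs <;> omega
          obtain ⟨N, hN1, hN2⟩ := attain K n0 hK1 hn0le (sol 1 0 (b' + 2) : ℚ) (G (b' + 2) : ℚ)
            (sol 1 0 b' : ℚ) (G b' : ℚ) (by
              intro n hn
              rcases Nat.eq_zero_or_pos b' with h | h
              · rw [hn0, if_pos h] at hn
                subst h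
                simp only [sol, G_zero]
                have := x_pos K n hK1 hn
                push_cast
                linarith
              · exact den_pos _ h _ (x_nonneg K n))
          refine ⟨N, ?_, fun n hn => ?_⟩
          · rcases Nat.eq_zero_or_pos b' with h | h
            · rw [hn0, if_pos h] at hN1
              have := h1n N hN1
              omega
            · omega
          · rw [hb, case_odd K N b' hK1 hlt, case_odd K n b' hK1 hlt]
            apply hN2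
            rw [hn0]
            split_ifs with h
            · exact hn1 n (by omega) hn
            · omega
        · -- `i = 2^k - 1`
          have hi' : i = 2 ^ (K + 1) - 1 := by omega
          subst hi'
          rcases Nat.even_or_odd K with hev | hodd
          · have hK2 : 2 ≤ K := by
              rcases hev with ⟨c, hc⟩
              omega
            exact ⟨5, by omega, fun n _ => special_even K n hK2 hev⟩
          · refine ⟨2, by omega, fun n hn => special_odd K n hK1 hodd ?_⟩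
            rcases Nat.lt_or_ge K 2 with h | h
            · left
              have hK1' : K = 1 := by omega
              subst hK1'
              exact hn1 n (by norm_num) hn
            · right; exact h

/-- `C_{k,i}`, the infimum of the ratios `ρ_{2^k n + i + 1} = |h_{2^k n+i+1}| / |h_{2^k n+i}|` over all
`n` with `2^k n + i ≥ 4`. -/
noncomputable def C (k i : ℕ) : ℝ :=
  sInf {y : ℝ | ∃ n : ℕ, 4 ≤ 2 ^ k * n + i ∧
    y = |(h (2 ^ k * n + i + 1) : ℝ)| / |(h (2 ^ k * n + i) : ℝ)|}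

lemma rr_cast (m : ℕ) : ((rr m : ℚ) : ℝ) = |(h (m + 1) : ℝ)| / |(h m : ℝ)| := by
  unfold rr
  push_cast
  rfl

lemma C_eq (k i N : ℕ) (hN : 4 ≤ 2 ^ k * N + i)
    (hmin : ∀ n, 4 ≤ 2 ^ k * n + i → rr (2 ^ k * N + i) ≤ rr (2 ^ k * n + i)) :
    C k i = (rr (2 ^ k * N + i) : ℝ) := by
  unfold C
  apply IsLeast.csInf_eq
  constructor
  · exact ⟨N, hN, rr_cast _⟩
  · rintro y ⟨n, hn, rfl⟩
    rw [← rr_cast]
    exact_mod_cast hmin n hn

lemma h_pos (m : ℕ) (hm : 4 ≤ m) : 0 < |(h m : ℝ)| := by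
  obtain ⟨N, hN | hN⟩ := Nat.even_or_odd' m
  · have h1 : |h (2 * N)| = G N := by rw [abs_h_even, abs_of_nonneg (G_nonneg N)]
    have h2 := G_pos N (by omega)
    rw [hN]
    have : 0 < |h (2 * N)| := by omega
    exact_mod_cast this
  · obtain ⟨M, rfl⟩ : ∃ M, N = M + 1 := ⟨N - 1, by omega⟩
    have h1 : |h (2 * M + 3)| = G M := by rw [abs_h_odd, abs_of_nonneg (G_nonneg M)]
    have h2 := G_pos M (by omega)
    rw [hN, show 2 * (M + 1) + 1 = 2 * M + 3 by ring]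
    have : 0 < |h (2 * M + 3)| := by omega
    exact_mod_cast this

/-- The value of `C_{k,0}`. -/
lemma C_zero (j : ℕ) (hj : 1 ≤ j) :
    C (2 * j) 0 = ((x (2 * j) 1)⁻¹ : ℚ) ∧ C (2 * j + 1) 0 = ((x (2 * j) 1)⁻¹ : ℚ) := by
  have hgen : ∀ K A : ℕ, 1 ≤ K → 1 ≤ A → (∀ a, x K a ≤ x K A) → C (K + 1) 0 = ((x K A)⁻¹ : ℚ) := by
    intro K A hK hA hmax
    have h2 := two_le_pow K hK
    have hpow : 2 ^ (K + 1) = 2 * 2 ^ K := by ring
    have h4 : 4 ≤ 2 ^ (K + 1) * A := by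
      calc 4 = 4 * 1 := by norm_num
        _ ≤ 2 ^ (K + 1) * A := Nat.mul_le_mul (by omega) hA
    rw [← case_zero K A hK hA]
    apply C_eq
    · omega
    · intro n hn
      have hn' : 1 ≤ n := by
        by_contra hcon
        have : n = 0 := by omega
        subst this
        omega
      rw [case_zero K A hK hA, case_zero K n hK hn']
      exact inv_anti₀ (x_pos K n hK hn') (hmax n)
  constructor
  · obtain ⟨K, hK⟩ : ∃ K, 2 * j = K + 1 := ⟨2 * j - 1, by omega⟩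
    have hodd : Odd K := ⟨j - 1, by omega⟩
    rw [hK, hgen K 2 (by omega) (by norm_num) (max_odd K (by omega) hodd)]
    have := x_double K 1
    rw [Nat.mul_one] at this
    rw [this]
  · exact hgen (2 * j) 1 (by omega) le_rfl (max_even (2 * j) (by omega) ⟨j, by ring⟩)

lemma C_zero_val (j : ℕ) (hj : 1 ≤ j) (u v : ℤ) (hu : G (4 ^ j - 1) = u) (hv : G (4 ^ j) = v) :
    ((x (2 * j) 1)⁻¹ : ℚ) = (u : ℚ) / (v : ℚ) := by
  unfold x
  have h1 : 2 ^ (2 * j) * 1 = 4 ^ j := by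
    rw [Nat.mul_one, pow_mul]
    norm_num
  have h2 : 1 ≤ 4 ^ j := Nat.one_le_pow _ _ (by norm_num)
  obtain ⟨N, hN⟩ : ∃ N, 4 ^ j = N + 1 := ⟨4 ^ j - 1, by omega⟩
  rw [h1, inv_div]
  have h3 : V (4 ^ j) = u := by rw [← hu, hN, V_succ, Nat.add_sub_cancel]
  rw [h3, hv]

/-- Q2 with `C_{k,i}` the infimum of the ratios: every `C_{k,i}` is attained, hence rational, and is the
best constant in `|h_{2^k n+i+1}| ≥ C_{k,i} |h_{2^k n+i}|`; `C_{2k,0} = C_{2k+1,0}`; and the listed values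
are correct. -/
theorem result :
    (∀ k i : ℕ, 1 ≤ k → i < 2 ^ k →
      (∃ N, 4 ≤ 2 ^ k * N + i ∧ C k i = |(h (2 ^ k * N + i + 1) : ℝ)| / |(h (2 ^ k * N + i) : ℝ)|) ∧
      (∃ r : ℚ, C k i = (r : ℝ)) ∧
      (∀ n, 4 ≤ 2 ^ k * n + i → C k i * |(h (2 ^ k * n + i) : ℝ)| ≤ |(h (2 ^ k * n + i + 1) : ℝ)|)) ∧
    (∀ k : ℕ, 1 ≤ k → C (2 * k) 0 = C (2 * k + 1) 0) ∧
    C 1 0 = 2 / 7 ∧ C 2 0 = 2 / 3 ∧ C 3 0 = 2 / 3 ∧ C 4 0 = 64 / 83 ∧ C 5 0 = 64 / 83 ∧
    C 6 0 = 52071130 / 67519091 ∧ C 7 0 = 52071130 / 67519091 := by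
  refine ⟨?_, ?_, ?_, ?_, ?_, ?_, ?_, ?_, ?_⟩
  · intro k i hk hi
    obtain ⟨N, hN1, hN2⟩ := attained k i hk hi
    have hC := C_eq k i N hN1 hN2
    refine ⟨⟨N, hN1, ?_⟩, ⟨_, hC⟩, ?_⟩
    · rw [hC, rr_cast]
    · intro n hn
      have h1 : (rr (2 ^ k * N + i) : ℝ) ≤ (rr (2 ^ k * n + i) : ℝ) := by exact_mod_cast hN2 n hn
      rw [hC]
      rw [rr_cast (2 ^ k * n + i), le_div_iff₀ (h_pos _ hn)] at h1
      exact h1
  · intro k hk
    rw [(C_zero k hk).1, (C_zero k hk).2]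
  · have := C_eq 1 0 7 (by norm_num) (fun n hn => case_one_zero n (by omega))
    rw [this, show 2 ^ 1 * 7 + 0 = 2 * (6 + 1) by norm_num, rr_even, G6, G7]
    norm_num
  · have h := (C_zero 1 le_rfl).1
    rw [C_zero_val 1 le_rfl 2 3 (by decide +kernel) (by decide +kernel)] at h
    rw [h]; norm_num
  · have h := (C_zero 1 le_rfl).2
    rw [C_zero_val 1 le_rfl 2 3 (by decide +kernel) (by decide +kernel)] at h
    rw [h]; norm_num
  · have h := (C_zero 2 (by norm_num)).1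
    rw [C_zero_val 2 (by norm_num) 64 83 (by decide +kernel) (by decide +kernel)] at h
    rw [h]; norm_num
  · have h := (C_zero 2 (by norm_num)).2
    rw [C_zero_val 2 (by norm_num) 64 83 (by decide +kernel) (by decide +kernel)] at h
    rw [h]; norm_num
  · have h := (C_zero 3 (by norm_num)).1
    rw [C_zero_val 3 (by norm_num) 52071130 67519091 (by decide +kernel) (by decide +kernel)] at h
    rw [h]; norm_num
  · have h := (C_zero 3 (by norm_num)).2
    rw [C_zero_val 3 (by norm_num) 52071130 67519091 (by decide +kernel) (by decide +kernel)] at h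
    rw [h]; norm_num

end Pool.Agent.Results.MP_e68cb8_nt.MinimalRatios
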