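import Mathlib
import Pool.Agent.X1.TMFibRatio

/-!
# The bound `|h_n| ≥ (2/7) |h_{n-1}|` for the Thue–Morse-twisted Fibonacci sequence
-/

set_option autoImplicit false

namespace Pool.Agent.Results.MP_e68cb8_nt.TwoSevenths

open Pool.Agent.X1.TMFib

lemma abs_even (N : ℕ) : |h (2 * N)| = G N := by
  rw [abs_h_even, abs_of_nonneg (G_nonneg N)]

lemma abs_odd (N : ℕ) : |h (2 * N + 3)| = G N := by
  rw [abs_h_odd, abs_of_nonneg (G_nonneg N)]

/-- The integer form of the bound, with the case of equality. -/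
lemma main (n : ℕ) (hn : 4 ≤ n) : 2 * |h (n - 1)| ≤ 7 * |h n| ∧ (2 * |h (n - 1)| = 7 * |h n| ↔ n = 15) := by
  obtain ⟨N, hN | hN⟩ := Nat.even_or_odd' n
  · obtain ⟨M, rfl⟩ : ∃ M, N = M + 2 := ⟨N - 2, by omega⟩
    have e1 : n - 1 = 2 * M + 3 := by omega
    rw [e1, hN, abs_even, abs_odd]
    have h1 := G_skip M
    have h2 := G_pos (M + 2) (by omega)
    refine ⟨by omega, ?_⟩
    constructor
    · intro h; omega
    · intro h; omega
  · obtain ⟨M, rfl⟩ : ∃ M, N = M + 2 := ⟨N - 2, by omega⟩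
    have e1 : n - 1 = 2 * (M + 2) := by omega
    have e2 : n = 2 * (M + 1) + 3 := by omega
    rw [e1]
    conv_lhs => rw [e2]
    have e3 : |h n| = G (M + 1) := by rw [e2, abs_odd]
    rw [e3, abs_even, abs_odd]
    have h1 := G_le_seven M
    refine ⟨h1, ?_⟩
    constructor
    · intro heq
      rcases Nat.lt_or_ge M 6 with hM | hM
      · clear h1 e1 e2 e3
        interval_cases M
        · exact absurd heq (by decide)
        · exact absurd heq (by decide)
        · exact absurd heq (by decide)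
        · exact absurd heq (by decide)
        · exact absurd heq (by decide)
        · omega
      · exfalso
        have h2 := G_le_seventeen M hM
        have h3 := G_pos (M + 1) (by omega)
        omega
    · intro h
      have : M = 5 := by omega
      subst this
      decide

/-- `|h_n| ≥ (2/7) |h_{n-1}|` for every `n ≥ 4`, with equality only for `n = 15`. -/
theorem result : ∀ n : ℕ, 4 ≤ n → (2 / 7 : ℚ) * |(h (n - 1) : ℚ)| ≤ |(h n : ℚ)| ∧
    ((2 / 7 : ℚ) * |(h (n - 1) : ℚ)| = |(h n : ℚ)| ↔ n = 15) := by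
  intro n hn
  obtain ⟨h1, h2⟩ := main n hn
  have h1' : 2 * |(h (n - 1) : ℚ)| ≤ 7 * |(h n : ℚ)| := by exact_mod_cast h1
  refine ⟨by linarith, ?_⟩
  rw [← h2]
  constructor
  · intro heq
    have : 2 * |(h (n - 1) : ℚ)| = 7 * |(h n : ℚ)| := by linarith
    exact_mod_cast this
  · intro heq
    have : 2 * |(h (n - 1) : ℚ)| = 7 * |(h n : ℚ)| := by exact_mod_cast heq
    linarith

end Pool.Agent.Results.MP_e68cb8_nt.TwoSevenths
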